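import Pool.Agent.H137R5.TowFree

set_option autoImplicit false

/-!
Towers of height three with varying bottom entry, and with varying top entry.

The number of the problem is `w = √2 ^ (√2 ^ √2)`.  It is the case `n = 2` of the numbers
`√n ^ (√2 ^ √2)` and the case `k = 1` of the numbers `√2 ^ (√2 ^ (k √2))`.

Uses the strong six exponentials theorem (helper301, helper335) and the inhomogeneous Baker theorem,
and the counting theorems `baseCount`, `topCount` of helper137.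
-/

namespace Pool.Agent.Results.MP_93d8d2_nt.BasesAndTops

open Pool.Agent.H137R5.Tow

/-- `t` is *free*: its logarithm is not of the form `γ + β₁ l₁ + ... + βₘ lₘ` with `γ`, the `βᵢ`
and the exponentials of the `lᵢ` algebraic (complex) numbers, i.e. `t` is not of the form
`e ^ γ * α₁ ^ β₁ * ... * αₘ ^ βₘ`. -/
def Free (t : ℝ) : Prop :=
  ∀ (m : ℕ) (γ : ℂ) (β l : Fin m → ℂ), IsAlgebraic ℚ γ → (∀ i, IsAlgebraic ℚ (β i)) →
    (∀ i, IsAlgebraic ℚ (Complex.exp (l i))) → ((Real.log t : ℝ) : ℂ) ≠ γ + ∑ i, β i * l i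

theorem sqrt2_alg : IsAlgebraic ℚ (√2 : ℝ) := by
  have h : IsAlgebraic ℚ ((√2 : ℝ) ^ 2) := by
    rw [Real.sq_sqrt (by norm_num)]
    have := isAlgebraic_algebraMap (R := ℚ) (A := ℝ) (2 : ℚ)
    rwa [show algebraMap ℚ ℝ (2 : ℚ) = (2 : ℝ) by norm_num] at this
  exact h.of_pow (by norm_num)

theorem one_lt_sqrt2 : (1 : ℝ) < √2 := by
  rw [Real.lt_sqrt (by norm_num)]
  norm_num

/-- `√2 ^ √2` is transcendental (Gelfond-Schneider). -/
theorem z_tr : Transcendental ℚ ((√2 : ℝ) ^ (√2 : ℝ)) :=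
  gs (lt_trans zero_lt_one one_lt_sqrt2) one_lt_sqrt2.ne' sqrt2_alg sqrt2_alg irrational_sqrt_two

open Classical in
theorem base (z : ℝ) (hz : Transcendental ℚ z) (N : ℕ) :
    ((Finset.Icc 2 N).filter (fun n : ℕ => ¬ Free ((n : ℝ) ^ z))).card ≤ (Nat.log 2 N + 1) ^ 2 := by
  refine le_trans (Finset.card_le_card ?_) (baseCount z hz N)
  intro n hn
  rw [Finset.mem_filter] at hn ⊢
  exact ⟨hn.1, bad_of_not_free hn.2⟩

open Classical in
theorem top (a z : ℝ) (ha : 0 < a) (ha1 : a ≠ 1) (hz : Transcendental ℚ z) (N : ℕ) :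
    (((Finset.Icc 1 N).filter (fun k : ℕ => ¬ Free (a ^ (z ^ k)))).card : ℝ) ≤
      2 * Real.sqrt N + 1 := by
  refine le_trans ?_ (topCount z (Real.log a) hz (log_ne ha ha1) N)
  have : ((Finset.Icc 1 N).filter (fun k : ℕ => ¬ Free (a ^ (z ^ k)))).card ≤
      ((Finset.Icc 1 N).filter (fun k : ℕ => InE z (Real.log a) k)).card := by
    apply Finset.card_le_card
    intro k hk
    rw [Finset.mem_filter] at hk ⊢
    refine ⟨hk.1, ?_⟩
    have h1 : Bad (a ^ (z ^ k)) := bad_of_not_free hk.2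
    have h2 := bad_rpow ha h1
    unfold InE
    rw [Complex.ofReal_mul]
    exact h2
  exact_mod_cast this

open Classical in
/-- **Main result.**
(1) Varying the bottom entry: if `z` is transcendental then for all but `(log₂ N + 1) ^ 2` of the
integers `2 ≤ n ≤ N` the number `n ^ z` is free; in particular this holds for
`√n ^ (√2 ^ √2) = n ^ (√2 ^ √2 / 2)`.
(2) Varying the top entry: if `a ≠ 1` is any positive real number and `z` is transcendental then for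
all but `2 √N + 1` of the integers `1 ≤ k ≤ N` the number `a ^ (z ^ k)` is free; in particular this
holds for the towers `√2 ^ (√2 ^ (k √2))`.
(3) Free positive numbers `t` are transcendental, and so are `e ^ γ * t ^ δ` for algebraic `γ` and
algebraic `δ ≠ 0`. -/
theorem result :
    ((∀ z : ℝ, Transcendental ℚ z → ∀ N : ℕ,
      ((Finset.Icc 2 N).filter (fun n : ℕ => ¬ Free ((n : ℝ) ^ z))).card ≤
        (Nat.log 2 N + 1) ^ 2) ∧
      ∀ N : ℕ, ((Finset.Icc 2 N).filter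
        (fun n : ℕ => ¬ Free ((√(n : ℝ)) ^ ((√2 : ℝ) ^ (√2 : ℝ))))).card ≤
          (Nat.log 2 N + 1) ^ 2) ∧
    ((∀ a z : ℝ, 0 < a → a ≠ 1 → Transcendental ℚ z → ∀ N : ℕ,
      (((Finset.Icc 1 N).filter (fun k : ℕ => ¬ Free (a ^ (z ^ k)))).card : ℝ) ≤
        2 * √(N : ℝ) + 1) ∧
      ∀ N : ℕ, (((Finset.Icc 1 N).filter
        (fun k : ℕ => ¬ Free ((√2 : ℝ) ^ ((√2 : ℝ) ^ ((k : ℝ) * √2))))).card : ℝ) ≤
          2 * √(N : ℝ) + 1) ∧
    (∀ t : ℝ, 0 < t → Free t → Transcendental ℚ t ∧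
      ∀ γ δ : ℂ, IsAlgebraic ℚ γ → IsAlgebraic ℚ δ → δ ≠ 0 →
        Transcendental ℚ (Complex.exp (γ + δ * ((Real.log t : ℝ) : ℂ)))) := by
  refine ⟨⟨base, fun N => ?_⟩, ⟨top, fun N => ?_⟩, ?_⟩
  · have hz2 : Transcendental ℚ (((√2 : ℝ) ^ (√2 : ℝ)) / 2) := by
      intro h
      apply z_tr
      have h2 := h.mul (isAlgebraic_algebraMap (R := ℚ) (A := ℝ) (2 : ℚ))
      have e : ((√2 : ℝ) ^ (√2 : ℝ)) / 2 * (algebraMap ℚ ℝ (2 : ℚ)) = (√2 : ℝ) ^ (√2 : ℝ) := by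
        rw [show algebraMap ℚ ℝ (2 : ℚ) = (2 : ℝ) by norm_num]
        field_simp
      rwa [e] at h2
    refine le_trans (Finset.card_le_card ?_) (base _ hz2 N)
    intro n hn
    rw [Finset.mem_filter] at hn ⊢
    refine ⟨hn.1, ?_⟩
    have e : (√(n : ℝ)) ^ ((√2 : ℝ) ^ (√2 : ℝ)) = (n : ℝ) ^ (((√2 : ℝ) ^ (√2 : ℝ)) / 2) := by
      rw [Real.sqrt_eq_rpow, ← Real.rpow_mul (Nat.cast_nonneg n)]
      congr 1
      ring
    rw [← e]
    exact hn.2
  · have e : ∀ k : ℕ, (√2 : ℝ) ^ ((k : ℝ) * √2) = ((√2 : ℝ) ^ (√2 : ℝ)) ^ k := by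
      intro k
      rw [← Real.rpow_natCast, ← Real.rpow_mul (Real.sqrt_nonneg 2), mul_comm]
    simp only [e]
    exact top _ _ (lt_trans zero_lt_one one_lt_sqrt2) one_lt_sqrt2.ne' z_tr N
  · intro t ht hf
    exact ⟨free_tr ht hf, fun γ δ hγ hδ hδ0 => free_pow hf γ δ hγ hδ hδ0⟩

end Pool.Agent.Results.MP_93d8d2_nt.BasesAndTops
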