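import Pool.Agent.V11268.PerTower
import Pool.Agent.H137R5.TowFam

set_option autoImplicit false

/-!
# Towers `c ^ (a ^ (d * b))` with rational `b`

`InP γ x`: the logarithm of the positive real number `x` is a linear combination, with algebraic
coefficients, of logarithms of algebraic numbers, of integrals of rational functions of one
variable with algebraic coefficients over compact intervals with algebraic end points, and of
the `g` arbitrary complex numbers `γ 0, ..., γ (g - 1)` (`Forms γ` of the starting library).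

`Mg g` is the smaller one of `2 g + 2` and `g + 2 √g + 2`, so `Mg 0 = 2`.

Here `t = √2 ^ √2`, and `w = √2 ^ t` is the number `c ^ (t ^ b)` for `c = √2`, `b = 1`.
-/

namespace Pool.Agent.Results.MP_93d8d2_nt.DifferencesOfExponents

open V11268.PerG (InP Mg)
open scoped Pointwise

lemma sqrt2_alg : IsAlgebraic ℚ (√2 : ℝ) := by
  have h : IsAlgebraic ℚ ((√2 : ℝ) ^ 2) := by
    rw [Real.sq_sqrt (by norm_num)]
    have := isAlgebraic_algebraMap (R := ℚ) (A := ℝ) (2 : ℚ)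
    rwa [show algebraMap ℚ ℝ (2 : ℚ) = (2 : ℝ) by norm_num] at this
  exact h.of_pow (by norm_num)

lemma one_lt_sqrt2 : (1 : ℝ) < √2 := by
  rw [Real.lt_sqrt (by norm_num)]
  norm_num

/-- `√2 ^ √2` is transcendental (Gelfond-Schneider) -/
lemma z_tr : Transcendental ℚ ((((√2 : ℝ) ^ (√2 : ℝ) : ℝ)) : ℂ) := by
  intro h
  refine Pool.Agent.H137R5.Tow.gs (lt_trans zero_lt_one one_lt_sqrt2) one_lt_sqrt2.ne'
    sqrt2_alg sqrt2_alg irrational_sqrt_two ?_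
  exact (isAlgebraic_algebraMap_iff (R := ℚ) (S := ℝ) (A := ℂ) Complex.ofReal_injective).mp h

theorem result :
    (∀ (g : ℕ) (γ : Fin g → ℂ),
      -- (0) positive algebraic numbers
      (∀ x : ℝ, 0 < x → IsAlgebraic ℚ x → InP γ x) ∧
      ∀ c : ℝ, 0 < c → c ≠ 1 →
        -- (1) few exponents with a given difference
        (∀ h : ℚ, h ≠ 0 →
          {b : ℚ | InP γ (c ^ (((√2 : ℝ) ^ (√2 : ℝ)) ^ (b : ℝ))) ∧
            InP γ (c ^ (((√2 : ℝ) ^ (√2 : ℝ)) ^ ((b + h : ℚ) : ℝ)))}.Finite ∧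
          ({b : ℚ | InP γ (c ^ (((√2 : ℝ) ^ (√2 : ℝ)) ^ (b : ℝ))) ∧
            InP γ (c ^ (((√2 : ℝ) ^ (√2 : ℝ)) ^ ((b + h : ℚ) : ℝ)))}.ncard : ℝ) ≤ Mg g) ∧
        -- (2) finite sets of exponents
        (∀ B X : Finset ℚ, X.Nonempty →
          ({b : ℚ | b ∈ B ∧ InP γ (c ^ (((√2 : ℝ) ^ (√2 : ℝ)) ^ (b : ℝ)))}.ncard : ℝ) ^ 2 *
              X.card ≤
            (B + X).card * ({b : ℚ | b ∈ B ∧
              InP γ (c ^ (((√2 : ℝ) ^ (√2 : ℝ)) ^ (b : ℝ)))}.ncard + Mg g * (X.card - 1))) ∧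
        -- (3) arithmetic progressions of exponents
        (∀ a h : ℚ, h ≠ 0 → ∀ N : ℕ,
          ({k : ℕ | 1 ≤ k ∧ k ≤ N ∧
            InP γ (c ^ (((√2 : ℝ) ^ (√2 : ℝ)) ^ ((a + k * h : ℚ) : ℝ)))}.ncard : ℝ) ≤
            Real.sqrt (Mg g * N) + Real.sqrt (Real.sqrt (Mg g * N)) + 1)) ∧
    -- (4) algebraic numbers in the sequence `c ^ (t ^ k)`, for instance for `c = √2`
    (∀ c : ℝ, 0 < c → c ≠ 1 → ∀ N : ℕ,
      ({k : ℕ | 1 ≤ k ∧ k ≤ N ∧
        IsAlgebraic ℚ (c ^ (((√2 : ℝ) ^ (√2 : ℝ)) ^ (k : ℝ)))}.ncard : ℝ) ≤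
        Real.sqrt (2 * N) + Real.sqrt (Real.sqrt (2 * N)) + 1) ∧
    (∀ N : ℕ,
      ({k : ℕ | 1 ≤ k ∧ k ≤ N ∧
        IsAlgebraic ℚ ((√2 : ℝ) ^ (((√2 : ℝ) ^ (√2 : ℝ)) ^ (k : ℝ)))}.ncard : ℝ) ≤
        Real.sqrt (2 * N) + Real.sqrt (Real.sqrt (2 * N)) + 1) := by
  have hs : (0 : ℝ) < √2 := lt_trans zero_lt_one one_lt_sqrt2
  have h0 : 0 < (√2 : ℝ) ^ (√2 : ℝ) := Real.rpow_pos_of_pos hs _
  have ht := z_tr
  have h1 : (√2 : ℝ) ≠ 1 := one_lt_sqrt2.ne'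
  refine ⟨fun g γ => ⟨fun x hx h => V11268.PerG.inP_alg γ hx h, fun c hc hc1 =>
    ⟨fun h hh => V11268.PerG.tower_few γ h0 ht hc hc1 hh,
      fun B X hX => V11268.PerG.tower_energy γ h0 ht hc hc1 B X hX,
      fun a h hh N => V11268.PerG.tower_ap γ h0 ht hc hc1 a hh N⟩⟩,
    fun c hc hc1 N => V11268.PerG.tower_alg h0 ht hc hc1 N,
    fun N => V11268.PerG.tower_alg h0 ht hs h1 N⟩

end Pool.Agent.Results.MP_93d8d2_nt.DifferencesOfExponents
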