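import Mathlib
import Pool.Agent.V11285.W8
import Pool.Agent.V1118.TowMid

/-!
# Windows of middle entries of power towers

Call `t > 0` free if `log t` is not a linear form in `1` and logarithms of algebraic numbers with
algebraic coefficients; a free number `t` is transcendental, and so are the numbers `e ^ γ t ^ δ`,
`γ` and `δ ≠ 0` algebraic.

Let `v_n ≥ 1` tend to infinity, `0 ≤ L_n ≤ v_n` for large `n`, `0 < δ < 1`, `∑ L_n (log v_n) ^ (-δ) < ∞`,
and let `A` be a countable set of real numbers, for example the set of all real algebraic numbers.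
Then for almost all real `α > 0`, all positive `a ∈ A`, `a ≠ 1`, and all real algebraic irrational
`c`: for all large `n` and ALL integers `m ≥ 1` with `|m - α v_n| ≤ L_n` the number `a ^ (m ^ c)` is
free.

The starting result `MiddleEntriesRate` bounds the number of the exceptional `m ≤ X` and excludes
none at given places.
-/

set_option autoImplicit false

open Filter Topology MeasureTheory
open Pool.Agent.V1118.TowMid

namespace Pool.Agent.Results.MP_93d8d2_nt.FreeWindows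

open MiddleEntriesRate (Free)

theorem result (A : Set ℝ) (hA : A.Countable) (v L : ℕ → ℝ) (δ : ℝ) (hδ : 0 < δ) (hδ1 : δ < 1)
    (hv : ∀ n, 1 ≤ v n) (hvt : Tendsto v atTop atTop) (hL : ∀ n, 0 ≤ L n)
    (hLv : ∀ᶠ n in atTop, L n ≤ v n) (hsum : Summable fun n => L n * Real.log (v n) ^ (-δ)) :
    ∀ᵐ α : ℝ, 0 < α → ∀ a ∈ A, 0 < a → a ≠ 1 → ∀ c : ℝ, IsAlgebraic ℚ c → Irrational c →
      ∃ n₀ : ℕ, ∀ n : ℕ, n₀ ≤ n → ∀ m : ℕ, 1 ≤ m → |(m : ℝ) - α * v n| ≤ L n →
        Free (a ^ ((m : ℝ) ^ c)) := by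
  have : Countable A := hA.to_subtype
  have : Countable {x : ℝ | IsAlgebraic ℚ x} := (Algebraic.countable ℚ ℝ).to_subtype
  have key : ∀ k : A × {x : ℝ | IsAlgebraic ℚ x}, ∀ᵐ α : ℝ, 0 < α → 0 < (k.1 : ℝ) →
      (k.1 : ℝ) ≠ 1 → Irrational (k.2 : ℝ) →
      ∃ n₀ : ℕ, ∀ n : ℕ, n₀ ≤ n → ∀ m : ℕ, 1 ≤ m → |(m : ℝ) - α * v n| ≤ L n →
        Free ((k.1 : ℝ) ^ ((m : ℝ) ^ (k.2 : ℝ))) := by
    rintro ⟨⟨a, haA⟩, ⟨c, hca⟩⟩
    by_cases hok : 0 < a ∧ a ≠ 1 ∧ Irrational c
    · obtain ⟨ha, ha1, hc⟩ := hok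
      obtain ⟨C, hC, hX⟩ := count a c ha ha1 hca hc δ hδ.le hδ1
      have hb := Pool.Agent.V11285.W8.ae_thinZ (fun d => 0 < d ∧ Bad a c d.natAbs) (δ := δ) (C := C) hδ
        (fun X hX3 => by
          refine le_trans ?_ (hX X hX3)
          have hfin : {k : ℕ | k ≤ X ∧ Bad a c k}.Finite := (Set.finite_Iic X).subset fun n hn => hn.1
          have hle : {d : ℤ | d.natAbs ≤ X ∧ (0 < d ∧ Bad a c d.natAbs)}.ncard ≤
              {k : ℕ | k ≤ X ∧ Bad a c k}.ncard := by
            refine Set.ncard_le_ncard_of_injOn (fun d : ℤ => d.natAbs) ?_ ?_ hfin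
            · intro d hd
              exact ⟨hd.1, hd.2.2⟩
            · intro x hx y hy hxy
              have h1 : 0 < x := hx.2.1
              have h2 : 0 < y := hy.2.1
              have h3 : x.natAbs = y.natAbs := hxy
              omega
          exact_mod_cast hle) hv hvt hL hLv hsum
      filter_upwards [hb] with α hα hα0 _ _ _
      obtain ⟨n₀, hn₀⟩ := hα hα0
      refine ⟨n₀, fun n hn m hm hw => ?_⟩
      by_contra hcon
      refine hn₀ n hn (m : ℤ) (by omega) ?_ ⟨by omega, ?_⟩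
      · have : |(((m : ℤ) : ℝ))| = (m : ℝ) := by
          rw [Int.cast_natCast, abs_of_nonneg (Nat.cast_nonneg m)]
        rw [this]
        exact hw
      · rw [Int.natAbs_natCast]
        exact ⟨hm, hcon⟩
    · exact Filter.Eventually.of_forall fun α _ h1 h2 h3 => absurd ⟨h1, h2, h3⟩ hok
  have hall := ae_all_iff.2 key
  filter_upwards [hall] with α hα hα0 a haA ha ha1 c hca hc
  exact hα (⟨a, haA⟩, ⟨c, hca⟩) hα0 ha ha1 hc

end Pool.Agent.Results.MP_93d8d2_nt.FreeWindows
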