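import Mathlib
import Pool.Agent.V1118.SpF
import Pool.Agent.V1118.TowMid

/-!
# Power towers with middle entries in the sparse sequences `⌊α n ^ κ⌋`, `κ > 1`

Call `t > 0` free if `log t` is not a linear form in `1` and logarithms of algebraic numbers with
algebraic coefficients; a free number `t` is transcendental, and so are the numbers `e ^ γ t ^ δ`,
`γ` and `δ ≠ 0` algebraic.

Let `A` be a countable set of real numbers, for example the set of all real algebraic numbers, and
`κ > 1`.  For all `α > 0` outside a set of Hausdorff dimension smaller than one, all positive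
`a ∈ A`, `a ≠ 1`, all real algebraic irrational `c` and all `ε > 0`: at most `C N (log N) ^ (ε - 1)` of
the `n ≤ N` are such that the number `a ^ (m ^ c)`, `m = ⌊α n ^ κ⌋ ≥ 1`, is not free.  (The number of the
problem is `√2 ^ (√2 ^ √2)`; this is about `√2 ^ (m ^ √2)`.)

The starting result `MiddleEntriesRate` is about all natural numbers `m`; its exceptional set could
contain a sparse sequence.
-/

set_option autoImplicit false

open Pool.Agent.V1118.SpD Pool.Agent.V1118.SpF Pool.Agent.V1118.TowMid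

namespace Pool.Agent.Results.MP_93d8d2_nt.SparseMiddleEntries

theorem result (A : Set ℝ) (hA : A.Countable) (κ : ℝ) (hκ : 1 < κ) :
    ∃ E : Set ℝ, dimH E < 1 ∧ ∀ α : ℝ, 0 < α → α ∉ E →
      ∀ a ∈ A, 0 < a → a ≠ 1 → ∀ c : ℝ, IsAlgebraic ℚ c → Irrational c →
        ∀ ε : ℝ, 0 < ε → ∃ C : ℝ, ∀ N : ℕ, 3 ≤ N →
          (along α κ (Bad a c) N : ℝ) ≤ C * N * (Real.log N) ^ (ε - 1) := by
  have : Countable A := hA.to_subtype
  have : Countable {x : ℝ | IsAlgebraic ℚ x} := (Algebraic.countable ℚ ℝ).to_subtype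
  obtain ⟨E, hE, h⟩ := few_nat κ hκ (ι := A × {x : ℝ | IsAlgebraic ℚ x})
    (fun k => Bad (k.1 : ℝ) (k.2 : ℝ))
  refine ⟨E, hE, fun α hα hαE a haA ha ha1 c hca hc ε hε => ?_⟩
  have hδ0 : 0 ≤ 1 - min ε 1 := by linarith [min_le_right ε 1]
  have hδ1 : 1 - min ε 1 < 1 := by linarith [lt_min hε one_pos]
  obtain ⟨C, hC, hst⟩ := count a c ha ha1 hca hc (1 - min ε 1) hδ0 hδ1
  obtain ⟨C', hC'⟩ := h α hα hαE (⟨a, haA⟩, ⟨c, hca⟩) (1 - min ε 1) C hδ0 ⟨3, fun X hX => hst X hX⟩
  refine ⟨|C'|, fun N hN => (hC' N hN).trans ?_⟩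
  have hN3 : (3 : ℝ) ≤ N := by exact_mod_cast hN
  have hl : 1 ≤ Real.log N := Pool.Agent.Y854.GM.one_le_log3 hN
  have h4 : (Real.log N) ^ (-(1 - min ε 1)) ≤ (Real.log N) ^ (ε - 1) :=
    Real.rpow_le_rpow_of_exponent_le hl (by linarith [min_le_left ε 1])
  have h5 : 0 ≤ (Real.log N) ^ (-(1 - min ε 1)) := Real.rpow_nonneg (by linarith) _
  calc C' * N * (Real.log N) ^ (-(1 - min ε 1)) ≤ |C'| * N * (Real.log N) ^ (-(1 - min ε 1)) :=
        mul_le_mul_of_nonneg_right
          (mul_le_mul_of_nonneg_right (le_abs_self C') (by linarith)) h5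
    _ ≤ |C'| * N * (Real.log N) ^ (ε - 1) := mul_le_mul_of_nonneg_left h4 (by positivity)

end Pool.Agent.Results.MP_93d8d2_nt.SparseMiddleEntries
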